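import Pool.Agent.H30.FQ.Targets

/-!
HHI: basic facts on hh and ZZ (MP_70ba79_ag).
-/

set_option autoImplicit false

namespace Pool.Agent.H48.FQ.HHI

open SC Pool.Agent.H27.LV Pool.Agent.H30.FQ

variable {k K : Type} [Field k] [Field K] [Algebra k K]

theorem ord_add_const (v : DV k K) (x : K) (c : k) (h : v.ord x < 0) :
    v.ord (x + algebraMap k K c) = v.ord x := by
  have hx : x ≠ 0 := by
    rintro rfl
    rw [v.ord_zero] at h
    omega
  exact (v.ord_add_eq_left hx (fun _ => by rw [v.ord_base]; exact h)).2

theorem max_add_const (v : DV k K) (x : K) (c : k) :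
    max 0 (-(v.ord (x + algebraMap k K c))) = max 0 (-(v.ord x)) := by
  by_cases h1 : v.ord x < 0
  · rw [ord_add_const v x c h1]
  by_cases h2 : v.ord (x + algebraMap k K c) < 0
  · have h3 := ord_add_const v (x + algebraMap k K c) (-c) h2
    rw [map_neg, add_neg_cancel_right] at h3
    rw [h3]
  · rw [max_eq_left (by omega), max_eq_left (by omega)]

theorem hhi : T_HHI := by
  intro k K _ _ _ _ _ _ htr
  refine ⟨?_, ?_, ?_⟩
  · intro x
    have hf : {v : DV k K | max 0 (-(v.ord x)) ≠ 0}.Finite := by
      refine (pfm k K htr x).1.subset ?_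
      intro v hv hv2
      apply hv
      rw [hv2]
      rfl
    refine ⟨finsum_nonneg (fun v => le_max_left _ _), hf, ?_⟩
    have h1 : ∀ v : DV k K, max 0 (v.ord x) = v.ord x + max 0 (-(v.ord x)) := by
      intro v
      rcases le_total 0 (v.ord x) with h | h
      · rw [max_eq_right h, max_eq_left (by omega)]
        omega
      · rw [max_eq_left h, max_eq_right (by omega)]
        omega
    rw [finsum_congr h1, finsum_add_distrib (pfm k K htr x).1 hf, (pfm k K htr x).2, zero_add]
    rfl
  · intro x c
    exact finsum_congr (fun v => max_add_const v x c)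
  · intro S x
    classical
    have hf : {v : DV k K | oo S x v ≠ 0}.Finite := by
      refine (pfm k K htr x).1.subset ?_
      intro v hv hv2
      apply hv
      unfold oo
      rw [hv2]
      split_ifs <;> rfl
    refine ⟨?_, hf⟩
    have h1 : ∀ v : DV k K, v.ord x = oo S x v + (if v ∈ S then v.ord x else 0) := by
      intro v
      unfold oo
      by_cases h : v ∈ S
      · rw [if_pos h, if_pos h]; omega
      · rw [if_neg h, if_neg h]; omega
    have hf2 : {v : DV k K | (if v ∈ S then v.ord x else 0) ≠ 0}.Finite := by
      refine S.finite_toSet.subset ?_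
      intro v hv
      by_contra hc
      apply hv
      exact if_neg hc
    have h2 := (pfm k K htr x).2
    rw [finsum_congr h1, finsum_add_distrib hf hf2] at h2
    have h3 : ∑ᶠ v : DV k K, (if v ∈ S then v.ord x else 0) = ∑ v ∈ S, v.ord x := by
      rw [finsum_eq_sum_of_support_subset (s := S)]
      · exact Finset.sum_congr rfl (fun v hv => if_pos hv)
      · intro v hv
        by_contra hc
        apply hv
        exact if_neg hc
    rw [h3] at h2
    unfold ZZ
    linarith

end Pool.Agent.H48.FQ.HHI
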