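import Pool.Agent.H30.FQ.Targets
import Pool.Agent.H48.FQ.HHI

/-!
ROOT: roots of polynomials with small coefficients (MP_70ba79_ag).
-/

set_option autoImplicit false

namespace Pool.Agent.H48.FQ.ROOT

open SC Pool.Agent.H27.LV Pool.Agent.H30.FQ Polynomial

theorem bnd (k K : Type) [Field k] [IsAlgClosed k] [CharZero k] [Field K] [Algebra k K]
    [Algebra.EssFiniteType k K] (htr : Algebra.trdeg k K = 1) (w : DV k K → ℤ)
    (hw : {v | w v ≠ 0}.Finite) (y : K) (a : DV k K → ℤ) (ha : {v | a v ≠ 0}.Finite) (m : ℤ)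
    (h : ∀ v, a v ≤ v.ord y + m * w v) : ∑ᶠ v, a v ≤ m * ∑ᶠ v, w v := by
  have h1 := (pfm k K htr y).1
  have h2 : {v : DV k K | m * w v ≠ 0}.Finite := by
    refine hw.subset ?_
    intro v hv hv2
    apply hv
    rw [hv2, mul_zero]
  have h3 : {v : DV k K | v.ord y + m * w v ≠ 0}.Finite := by
    refine (h1.union h2).subset ?_
    intro v hv
    by_contra hc
    rw [Set.mem_union, not_or] at hc
    apply hv
    have e1 : v.ord y = 0 := not_not.1 hc.1
    have e2 : m * w v = 0 := not_not.1 hc.2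
    rw [e1, e2, add_zero]
  have h4 : ∑ᶠ v, a v ≤ ∑ᶠ v : DV k K, (v.ord y + m * w v) := finsum_le_finsum' ha h3 h
  rw [finsum_add_distrib h1 h2, (pfm k K htr y).2, zero_add, ← mul_finsum] at h4
  exact h4

theorem loc {k K : Type} [Field k] [Field K] [Algebra k K] (v : DV k K) (w : DV k K → ℤ)
    (hw : ∀ v, 0 ≤ w v) (ω : ℕ) (p : K[X]) (hp : SmP w ω p) (hp0 : p ≠ 0) (S : K)
    (hS : p.eval S = 0) : max 0 (-(v.ord S)) ≤ v.ord p.leadingCoeff + 2 * ω * w v := by
  obtain ⟨hd, hc⟩ := hp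
  have hl0 : p.leadingCoeff ≠ 0 := leadingCoeff_ne_zero.2 hp0
  have hlead : -(2 * ω * w v) ≤ v.ord p.leadingCoeff := by
    rcases hc p.natDegree hd v with h | h
    · exact absurd h hl0
    · refine le_trans ?_ h
      have h1 : ((ω - p.natDegree : ℕ) : ℤ) ≤ ω := by
        have : ω - p.natDegree ≤ ω := Nat.sub_le _ _
        exact_mod_cast this
      have := mul_le_mul_of_nonneg_right h1 (hw v)
      linarith
  rw [max_le_iff]
  refine ⟨by linarith, ?_⟩
  by_contra hcon
  push Not at hcon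
  have hN : v.ord S < 0 := by linarith
  have hS0 : S ≠ 0 := by
    rintro rfl
    rw [v.ord_zero] at hN
    omega
  have hne : p.leadingCoeff * S ^ p.natDegree ≠ 0 := mul_ne_zero hl0 (pow_ne_zero _ hS0)
  have hsum : p.leadingCoeff * S ^ p.natDegree =
      -∑ i ∈ Finset.range p.natDegree, p.coeff i * S ^ i := by
    rw [eval_eq_sum_range, Finset.sum_range_succ] at hS
    rw [eq_neg_iff_add_eq_zero, add_comm]
    exact hS
  have hord : v.ord (p.leadingCoeff * S ^ p.natDegree) =
      v.ord p.leadingCoeff + p.natDegree * v.ord S := by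
    rw [v.ord_mul' hl0 (pow_ne_zero _ hS0), v.ord_pow]
  have hge : ge v (v.ord (p.leadingCoeff * S ^ p.natDegree) + 1)
      (p.leadingCoeff * S ^ p.natDegree) := by
    rw [hord]
    rw [hsum]
    apply ge.neg
    apply ge_sum
    intro i hi
    rw [Finset.mem_range] at hi
    by_cases h0 : p.coeff i = 0
    · left; rw [h0, zero_mul]
    right
    rw [v.ord_mul' h0 (pow_ne_zero _ hS0), v.ord_pow]
    have h1 : -(2 * ((ω - i : ℕ) : ℤ) * w v) ≤ v.ord (p.coeff i) :=
      (hc i (by omega) v).resolve_left h0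
    have h2 : ((ω - i : ℕ) : ℤ) ≤ ω := by
      have : ω - i ≤ ω := Nat.sub_le _ _
      exact_mod_cast this
    have h3 := mul_le_mul_of_nonneg_right h2 (hw v)
    have h4 : (1 : ℤ) ≤ (p.natDegree : ℤ) - i := by
      have : (i : ℤ) < p.natDegree := by exact_mod_cast hi
      omega
    have h5 : ((p.natDegree : ℤ) - i) * v.ord S ≤ 1 * v.ord S :=
      mul_le_mul_of_nonpos_right h4 hN.le
    nlinarith
  rcases hge with h | h
  · exact hne h
  · omega

theorem root : T_ROOT := by
  intro k K _ _ _ _ _ _ htr w hw hfin ω p hp hp0 S hS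
  have hf := ((HHI.hhi k K htr).1 S).2.1
  exact bnd k K htr w hfin p.leadingCoeff _ hf (2 * ω)
    (fun v => loc v w hw ω p hp hp0 S hS)

end Pool.Agent.H48.FQ.ROOT
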