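import Pool.Agent.H30.FQ.Targets
import Pool.Agent.H48.FQ.ROOT

/-!
KAP: the case when the derivative of kappa is `2 l kappa` (MP_70ba79_ag).
-/

set_option autoImplicit false

namespace Pool.Agent.H48.FQ.KAP

open SC Pool.Agent.H27.LV Pool.Agent.H30.FQ

/-- the bound if `f ^ 2 = c κ x ^ 2` with `f`, `κ` small of weight two, `x` arbitrary -/
theorem key (h : T_HHI) (k K : Type) [Field k] [IsAlgClosed k] [CharZero k] [Field K] [Algebra k K]
    [Algebra.EssFiniteType k K] (htr : Algebra.trdeg k K = 1) (w : DV k K → ℤ)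
    (hw : ∀ v, 0 ≤ w v) (hfin : {v | w v ≠ 0}.Finite) (f κ x : K) (c : k)
    (hf : Sm w 2 f) (hκ : Sm w 2 κ) (hf0 : f ≠ 0) (hκ0 : κ ≠ 0) (hx0 : x ≠ 0)
    (he : f ^ 2 = algebraMap k K c * (κ * x ^ 2)) : hh k x ≤ 4 * ∑ᶠ v, w v := by
  have hc0 : c ≠ 0 := by
    rintro rfl
    rw [map_zero, zero_mul] at he
    exact hf0 (pow_eq_zero_iff (two_ne_zero)|>.1 he)
  have hc0' : algebraMap k K c ≠ 0 := (map_ne_zero _).2 hc0
  have hord : ∀ v : DV k K, 2 * v.ord f = v.ord κ + 2 * v.ord x := by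
    intro v
    have h1 := congrArg v.ord he
    rw [v.ord_pow, v.ord_mul' hc0' (mul_ne_zero hκ0 (pow_ne_zero _ hx0)), v.ord_base,
      v.ord_mul' hκ0 (pow_ne_zero _ hx0), v.ord_pow] at h1
    push_cast at h1
    linarith
  have hb : ∀ v : DV k K, 2 * max 0 (-(v.ord x)) ≤ v.ord κ + 8 * w v := by
    intro v
    have h1 : -(2 * ((2 : ℕ) : ℤ) * w v) ≤ v.ord f := (hf v).resolve_left hf0
    have h2 : -(2 * ((2 : ℕ) : ℤ) * w v) ≤ v.ord κ := (hκ v).resolve_left hκ0
    push_cast at h1 h2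
    have h3 := hord v
    have h4 := hw v
    rcases le_total 0 (-(v.ord x)) with h5 | h5
    · rw [max_eq_right h5]; linarith
    · rw [max_eq_left h5]; linarith
  have hfx := ((h k K htr).1 x).2.1
  have hfx2 : {v : DV k K | 2 * max 0 (-(v.ord x)) ≠ 0}.Finite := by
    refine hfx.subset ?_
    intro v hv hv2
    apply hv
    rw [hv2, mul_zero]
  have h5 := ROOT.bnd k K htr w hfin κ _ hfx2 8 hb
  rw [← mul_finsum] at h5
  have h6 : hh k x = ∑ᶠ v : DV k K, max 0 (-(v.ord x)) := rfl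
  rw [← h6] at h5
  linarith

theorem hh_inv (h : T_HHI) (k K : Type) [Field k] [IsAlgClosed k] [CharZero k] [Field K]
    [Algebra k K] [Algebra.EssFiniteType k K] (htr : Algebra.trdeg k K = 1) (x : K) :
    hh k x⁻¹ = hh k x := by
  rw [← ((h k K htr).1 x).2.2]
  apply finsum_congr
  intro v
  rw [v.ord_inv, neg_neg]

theorem der_zero {k K : Type} [Field k] [Field K] [Algebra k K] (D : Derivation k K K)
    (x y : K) (m : K) (hy : y ≠ 0) (hx : D x = m * x) (hy' : D y = m * y) : D (x / y) = 0 := by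
  have h1 : x = x / y * y := by field_simp
  have h2 : D x = (x / y) * D y + y * D (x / y) := by
    conv_lhs => rw [h1]
    rw [D.leibniz, smul_eq_mul, smul_eq_mul]
  rw [hx, hy'] at h2
  have h3 : y * D (x / y) = 0 := by
    have : x / y * (m * y) = m * x := by field_simp
    rw [this] at h2
    linear_combination -h2
  exact (mul_eq_zero.1 h3).resolve_left hy

theorem kap (h : T_HHI) : T_KAP := by
  intro k K _ _ _ _ _ _ htr D w hD hw hfin hder l κ u hl hκ hu hu0 hκ0 hDκ h16
  have hcK : CharZero K := charZero_of_injective_algebraMap (algebraMap k K).injective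
  have hDl : Sm w 2 (D l) := hder 1 l hl
  have hl2 : Sm w 2 (l ^ 2) := by
    have := hl.mul hl
    rw [← pow_two] at this
    exact this
  have hl1 : Sm w 2 l := hl.mono hw (by norm_num)
  obtain ⟨f, hfd⟩ : ∃ f, f = l ^ 2 - l - D l := ⟨_, rfl⟩
  obtain ⟨g, hgd⟩ : ∃ g, g = l ^ 2 + l - D l := ⟨_, rfl⟩
  have hf : Sm w 2 f := by rw [hfd]; exact (hl2.sub hl1).sub hDl
  have hg : Sm w 2 g := by rw [hgd]; exact (hl2.add hl1).sub hDl
  have hD16 : 16 * D κ = -(2 * l * D l) + 2 * D (D l) := by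
    have h1 := congrArg D h16
    have e1 : D (16 * κ) = 16 * D κ := by
      rw [D.leibniz, smul_eq_mul, smul_eq_mul]
      have : D (16 : K) = 0 := by
        have := D.map_natCast 16
        exact_mod_cast this
      rw [this]
      ring
    have e2 : D (1 - l ^ 2 + 2 * D l) = -(2 * l * D l) + 2 * D (D l) := by
      rw [map_add, map_sub, D.map_one_eq_zero, D.leibniz_pow, D.leibniz, smul_eq_mul, smul_eq_mul,
        smul_eq_mul, nsmul_eq_mul]
      have : D (2 : K) = 0 := by
        have := D.map_natCast 2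
        exact_mod_cast this
      rw [this]
      push_cast
      ring
    rw [e1, e2] at h1
    exact h1
  have hDDl : D (D l) = 3 * l * D l + l - l ^ 3 := by
    rw [hDκ] at hD16
    linear_combination -(1 / 2) * hD16 + l * h16
  have hDl2 : D (l ^ 2) = 2 * l * D l := by
    rw [D.leibniz_pow, smul_eq_mul, nsmul_eq_mul]
    push_cast
    ring
  have hDf : D f = (1 + l) * f := by
    rw [hfd, map_sub, map_sub, hDl2, hDDl]
    ring
  have hDg : D g = (l - 1) * g := by
    rw [hgd, map_sub, map_add, hDl2, hDDl]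
    ring
  have hsq : ∀ x : K, D (x ^ 2) = 2 * x * D x := by
    intro x
    rw [D.leibniz_pow, smul_eq_mul, nsmul_eq_mul]
    push_cast
    ring
  by_cases hf0 : f = 0
  · by_cases hg0 : g = 0
    · right
      have h1 : 2 * l = 0 := by
        have : 2 * l = g - f := by rw [hgd, hfd]; ring
        rw [this, hf0, hg0, sub_zero]
      have h2 : l = 0 := (mul_eq_zero.1 h1).resolve_left two_ne_zero
      refine ⟨h2, ?_⟩
      rw [h2, map_zero] at h16
      field_simp
      linear_combination h16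
    · left
      have h1 : D (g ^ 2) = (2 * (l - 1)) * g ^ 2 := by rw [hsq, hDg]; ring
      have h2 : D (κ * u⁻¹ ^ 2) = (2 * (l - 1)) * (κ * u⁻¹ ^ 2) := by
        rw [D.leibniz, hsq, D.leibniz_inv, hu, hDκ, smul_eq_mul, smul_eq_mul, smul_eq_mul]
        field_simp
        ring
      have h3 := der_zero D (g ^ 2) (κ * u⁻¹ ^ 2) _
        (mul_ne_zero hκ0 (pow_ne_zero _ (inv_ne_zero hu0))) h1 h2
      obtain ⟨c, hc⟩ := ker k K htr D hD _ h3
      have h4 := key h k K htr w hw hfin g κ u⁻¹ c hg hκ hg0 hκ0 (inv_ne_zero hu0)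
        (by rw [hc]; field_simp)
      rw [hh_inv h k K htr] at h4
      exact h4
  · left
    have h1 : D (f ^ 2) = (2 * (1 + l)) * f ^ 2 := by rw [hsq, hDf]; ring
    have h2 : D (κ * u ^ 2) = (2 * (1 + l)) * (κ * u ^ 2) := by
      rw [D.leibniz, hsq, hu, hDκ, smul_eq_mul, smul_eq_mul]
      ring
    have h3 := der_zero D (f ^ 2) (κ * u ^ 2) _ (mul_ne_zero hκ0 (pow_ne_zero _ hu0)) h1 h2
    obtain ⟨c, hc⟩ := ker k K htr D hD _ h3
    exact key h k K htr w hw hfin f κ u c hf hκ hf0 hκ0 hu0 (by rw [hc]; field_simp)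

end Pool.Agent.H48.FQ.KAP
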